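import Pool.Agent.Helper336.CF

set_option autoImplicit false

/-!
Some letter-bounded context-free languages over four blocks.
-/

namespace Pool.Agent.H582R2.Bdd

open Pool.Agent.Helper336.CF

variable {T : Type}

/-- Wrapping in equal powers of two letters. -/
def wrap2 (p q : T) (L : Set (List T)) : Set (List T) :=
  {w | ∃ e : ℕ, ∃ u ∈ L, w = List.replicate e p ++ u ++ List.replicate e q}

theorem cf_wrap2 (p q : T) {L : Set (List T)} (h : IsCF L) : IsCF (wrap2 p q L) := by
  classical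
  obtain ⟨g₁, e₁⟩ := h
  have e₁' : Gen g₁ g₁.initial = L := e₁
  let g0 : ContextFreeGrammar T := ⟨PUnit, PUnit.unit, ∅⟩
  refine ext_cf g₁ g0 {[Symbol.nonterminal (some (Sum.inl g₁.initial))],
    [Symbol.terminal p, Symbol.nonterminal none, Symbol.terminal q]} _ ?_ ?_
  · intro o ho w hw
    simp only [Finset.mem_insert, Finset.mem_singleton] at ho
    rcases ho with rfl | rfl
    · obtain ⟨w₁, w₂, rfl, h1, h2⟩ := hw
      simp only [Comp] at h2
      subst h2
      refine ⟨0, w₁, ?_, by simp⟩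
      rw [← e₁']; exact h1
    · obtain ⟨w', rfl, w₁, w₂, rfl, ⟨e, u, hu, rfl⟩, w₃, rfl, h3⟩ := hw
      simp only [Comp] at h3
      subst h3
      refine ⟨e + 1, u, hu, ?_⟩
      rw [List.replicate_succ, List.replicate_succ']
      simp
  · rintro S h1 _ hS w ⟨e, u, hu, rfl⟩
    induction e with
    | zero =>
      refine hS [Symbol.nonterminal (some (Sum.inl g₁.initial))] (by simp) _ ?_
      refine ⟨u, [], by simp, h1 _ ?_, rfl⟩
      rw [e₁']; exact hu
    | succ e ih =>
      refine hS [Symbol.terminal p, Symbol.nonterminal none, Symbol.terminal q] (by simp) _ ?_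
      refine ⟨(List.replicate e p ++ u ++ List.replicate e q) ++ [q], ?_, _, [q], rfl, ih, [], rfl, rfl⟩
      rw [List.replicate_succ, List.replicate_succ']
      simp

open Classical in
/-- Wrapping if a condition holds. -/
noncomputable def wr (e : T → T → Prop) (p q : T) (L : Set (List T)) : Set (List T) :=
  if e p q then wrap2 p q L else L

theorem cf_wr (e : T → T → Prop) (p q : T) {L : Set (List T)} (h : IsCF L) :
    IsCF (wr e p q L) := by
  unfold wr
  split_ifs
  · exact cf_wrap2 p q h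
  · exact h

theorem mem_wr {e : T → T → Prop} {p q : T} {L : Set (List T)} {w : List T} :
    w ∈ wr e p q L ↔ ∃ m : ℕ, (¬ e p q → m = 0) ∧
      ∃ u ∈ L, w = List.replicate m p ++ u ++ List.replicate m q := by
  unfold wr
  split_ifs with h
  · constructor
    · rintro ⟨m, u, hu, rfl⟩
      exact ⟨m, fun h' => absurd h h', u, hu, rfl⟩
    · rintro ⟨m, _, u, hu, rfl⟩
      exact ⟨m, u, hu, rfl⟩
  · constructor
    · intro hw
      exact ⟨0, fun _ => rfl, w, hw, by simp⟩
    · rintro ⟨m, h1, u, hu, rfl⟩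
      rw [h1 h]
      simpa using hu

/-- Words with two blocks. -/
noncomputable def K2 (e : T → T → Prop) (p q : T) : Set (List T) := wr e p q {[]}

theorem cf_K2 (e : T → T → Prop) (p q : T) : IsCF (K2 e p q) := cf_wr e p q (cf_singleton [])

theorem mem_K2 {e : T → T → Prop} {p q : T} {w : List T} :
    w ∈ K2 e p q ↔ ∃ m : ℕ, (¬ e p q → m = 0) ∧ w = List.replicate m p ++ List.replicate m q := by
  unfold K2
  rw [mem_wr]
  simp

/-- Words with three blocks. -/
noncomputable def K3 (e : T → T → Prop) (p q r : T) : Set (List T) :=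
  wr e p r (cat (K2 e p q) (K2 e q r))

theorem cf_K3 (e : T → T → Prop) (p q r : T) : IsCF (K3 e p q r) :=
  cf_wr e p r (cf_cat (cf_K2 e p q) (cf_K2 e q r))

theorem mem_K3 {e : T → T → Prop} {p q r : T} {w : List T} :
    w ∈ K3 e p q r ↔ ∃ a b c : ℕ, (¬ e p q → a = 0) ∧ (¬ e q r → b = 0) ∧ (¬ e p r → c = 0) ∧
      w = List.replicate (a + c) p ++ (List.replicate (a + b) q ++ List.replicate (b + c) r) := by
  unfold K3
  rw [mem_wr]
  constructor
  · rintro ⟨c, hc, u, ⟨u1, hu1, u2, hu2, rfl⟩, rfl⟩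
    obtain ⟨a, ha, rfl⟩ := mem_K2.1 hu1
    obtain ⟨b, hb, rfl⟩ := mem_K2.1 hu2
    refine ⟨a, b, c, ha, hb, hc, ?_⟩
    rw [Nat.add_comm a c]
    simp only [List.replicate_add, List.append_assoc]
  · rintro ⟨a, b, c, ha, hb, hc, rfl⟩
    refine ⟨c, hc, (List.replicate a p ++ List.replicate a q) ++
      (List.replicate b q ++ List.replicate b r), ⟨_, mem_K2.2 ⟨a, ha, rfl⟩, _,
        mem_K2.2 ⟨b, hb, rfl⟩, rfl⟩, ?_⟩
    rw [Nat.add_comm a c]
    simp only [List.replicate_add, List.append_assoc]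

/-- Words with four blocks. -/
noncomputable def K4 (e : T → T → Prop) (p q r s : T) : Set (List T) :=
  wr e p s (cat (K3 e p q r) (K2 e r s) ∪ cat (K2 e p q) (K3 e q r s))

theorem cf_K4 (e : T → T → Prop) (p q r s : T) : IsCF (K4 e p q r s) :=
  cf_wr e p s (cf_union (cf_cat (cf_K3 e p q r) (cf_K2 e r s))
    (cf_cat (cf_K2 e p q) (cf_K3 e q r s)))

theorem mem_K4 {e : T → T → Prop} {p q r s : T} {w : List T} :
    w ∈ K4 e p q r s ↔ ∃ pq qr rs pr qs ps : ℕ, (¬ e p q → pq = 0) ∧ (¬ e q r → qr = 0) ∧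
      (¬ e r s → rs = 0) ∧ (¬ e p r → pr = 0) ∧ (¬ e q s → qs = 0) ∧ (¬ e p s → ps = 0) ∧
      (pr = 0 ∨ qs = 0) ∧
      w = List.replicate (pq + pr + ps) p ++ (List.replicate (pq + qr + qs) q ++
        (List.replicate (qr + rs + pr) r ++ List.replicate (rs + qs + ps) s)) := by
  unfold K4
  rw [mem_wr]
  constructor
  · rintro ⟨ps, hps, u, hu, rfl⟩
    rcases hu with ⟨u1, hu1, u2, hu2, rfl⟩ | ⟨u1, hu1, u2, hu2, rfl⟩
    · obtain ⟨a, b, c, ha, hb, hc, rfl⟩ := mem_K3.1 hu1
      obtain ⟨d, hd, rfl⟩ := mem_K2.1 hu2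
      refine ⟨a, b, d, c, 0, ps, ha, hb, hd, hc, fun _ => rfl, hps, Or.inr rfl, ?_⟩
      rw [Nat.add_comm (a + c) ps, show b + d + c = (b + c) + d by omega]
      simp only [List.replicate_add, List.append_assoc, Nat.add_zero]
    · obtain ⟨a, b, c, ha, hb, hc, rfl⟩ := mem_K3.1 hu2
      obtain ⟨d, hd, rfl⟩ := mem_K2.1 hu1
      refine ⟨d, a, b, 0, c, ps, hd, ha, hb, fun _ => rfl, hc, hps, Or.inl rfl, ?_⟩
      rw [show d + 0 + ps = ps + d by omega, show d + a + c = d + (a + c) by omega]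
      simp only [List.replicate_add, List.append_assoc, Nat.add_zero]
  · rintro ⟨pq, qr, rs, pr, qs, ps, h1, h2, h3, h4, h5, h6, h7, rfl⟩
    rcases h7 with h7 | h7
    · subst h7
      refine ⟨ps, h6, (List.replicate pq p ++ List.replicate pq q) ++
        (List.replicate (qr + qs) q ++ (List.replicate (qr + rs) r ++ List.replicate (rs + qs) s)),
        Or.inr ⟨_, mem_K2.2 ⟨pq, h1, rfl⟩, _, mem_K3.2 ⟨qr, rs, qs, h2, h3, h5, rfl⟩, rfl⟩, ?_⟩
      rw [show pq + 0 + ps = ps + pq by omega, show pq + qr + qs = pq + (qr + qs) by omega]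
      simp only [List.replicate_add, List.append_assoc, Nat.add_zero]
    · subst h7
      refine ⟨ps, h6, (List.replicate (pq + pr) p ++ (List.replicate (pq + qr) q ++
        List.replicate (qr + pr) r)) ++ (List.replicate rs r ++ List.replicate rs s),
        Or.inl ⟨_, mem_K3.2 ⟨pq, qr, pr, h1, h2, h4, rfl⟩, _, mem_K2.2 ⟨rs, h3, rfl⟩, rfl⟩, ?_⟩
      rw [Nat.add_comm (pq + pr) ps, show qr + rs + pr = (qr + pr) + rs by omega]
      simp only [List.replicate_add, List.append_assoc, Nat.add_zero]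

end Pool.Agent.H582R2.Bdd
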