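import Pool.Agent.Helper336.CF

set_option autoImplicit false

/-!
Languages given by sortedness (for a rank function) and one interval condition on a weighted letter
count are context-free.
-/

namespace Pool.Agent.H582R2.Ctr

open Pool.Agent.Helper336.CF

variable {T : Type}

/-- Choice of a value for every letter. -/
theorem choose (lo hi : T → ℤ) (hlh : ∀ t, lo t ≤ hi t) (w : List T) : ∀ d : ℤ,
    (w.map lo).sum ≤ d → d ≤ (w.map hi).sum →
      ∃ p : List (T × ℤ), p.map Prod.fst = w ∧ (∀ x ∈ p, lo x.1 ≤ x.2 ∧ x.2 ≤ hi x.1) ∧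
        (p.map Prod.snd).sum = d := by
  have hle : ∀ v : List T, (v.map lo).sum ≤ (v.map hi).sum := by
    intro v
    induction v with
    | nil => simp
    | cons t v ih =>
      simp only [List.map_cons, List.sum_cons]
      have := hlh t
      omega
  induction w with
  | nil =>
    intro d h1 h2
    simp only [List.map_nil, List.sum_nil] at h1 h2
    exact ⟨[], rfl, by simp, by simp; omega⟩
  | cons t w ih =>
    intro d h1 h2
    simp only [List.map_cons, List.sum_cons] at h1 h2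
    have h3 := hle w
    have h4 := hlh t
    obtain ⟨v, hv1, hv2, hv3, hv4⟩ : ∃ v : ℤ, lo t ≤ v ∧ v ≤ hi t ∧ (w.map lo).sum ≤ d - v ∧
        d - v ≤ (w.map hi).sum := by
      by_cases h : lo t ≤ d - (w.map hi).sum
      · exact ⟨d - (w.map hi).sum, h, by omega, by omega, by omega⟩
      · exact ⟨lo t, le_refl _, h4, by omega, by omega⟩
    obtain ⟨p, hp1, hp2, hp3⟩ := ih (d - v) hv3 hv4
    refine ⟨(t, v) :: p, by simp [hp1], ?_, by simp [hp3]⟩
    intro x hx
    rcases List.mem_cons.1 hx with rfl | hx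
    · exact ⟨hv1, hv2⟩
    · exact hp2 x hx

theorem split_aux {B d : ℤ} (hd : d ≤ B) (l : List (T × ℤ)) : ∀ s : ℤ,
    (∀ x ∈ l, x.2 ≤ B ∧ -B ≤ x.2) → 0 ≤ B → s < d - B → s + (l.map Prod.snd).sum = d →
      ∃ l1 l2, l = l1 ++ l2 ∧ l1 ≠ [] ∧ l2 ≠ [] ∧ d - B ≤ s + (l1.map Prod.snd).sum ∧
        s + (l1.map Prod.snd).sum ≤ B := by
  induction l with
  | nil =>
    intro s _ hB h1 h2
    simp only [List.map_nil, List.sum_nil] at h2
    omega
  | cons x l ih =>
    intro s hl hB h1 h2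
    simp only [List.map_cons, List.sum_cons] at h2
    have hx := hl x (List.mem_cons_self)
    by_cases h3 : d - B ≤ s + x.2
    · refine ⟨[x], l, rfl, by simp, ?_, by simpa using h3, by simp; omega⟩
      rintro rfl
      simp only [List.map_nil, List.sum_nil] at h2
      omega
    · obtain ⟨l1, l2, rfl, h4, h5, h6, h7⟩ := ih (s + x.2)
        (fun y hy => hl y (List.mem_cons_of_mem _ hy)) hB (by omega) (by omega)
      refine ⟨x :: l1, l2, rfl, by simp, h5, ?_, ?_⟩
      · simp only [List.map_cons, List.sum_cons]; omega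
      · simp only [List.map_cons, List.sum_cons]; omega

theorem split_pos {B d : ℤ} (_hd0 : 0 ≤ d) (hd : d ≤ B) (l : List (T × ℤ))
    (hl : ∀ x ∈ l, x.2 ≤ B ∧ -B ≤ x.2) (hlen : 2 ≤ l.length) (hs : (l.map Prod.snd).sum = d) :
      ∃ l1 l2, l = l1 ++ l2 ∧ l1 ≠ [] ∧ l2 ≠ [] ∧ d - B ≤ (l1.map Prod.snd).sum ∧
        (l1.map Prod.snd).sum ≤ B := by
  match l, hlen with
  | x :: y :: l, _ =>
    have hx := hl x (List.mem_cons_self)
    by_cases h3 : d - B ≤ x.2
    · exact ⟨[x], y :: l, rfl, by simp, by simp, by simpa using h3, by simpa using hx.1⟩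
    · obtain ⟨l1, l2, h0, h4, h5, h6, h7⟩ := split_aux hd (y :: l) x.2
        (fun z hz => hl z (List.mem_cons_of_mem _ hz)) (by omega) (by omega)
        (by simpa using hs)
      refine ⟨x :: l1, l2, by rw [h0]; rfl, by simp, h5, ?_, ?_⟩
      · simp only [List.map_cons, List.sum_cons]; omega
      · simp only [List.map_cons, List.sum_cons]; omega

theorem sum_neg (l : List (T × ℤ)) :
    ((l.map (fun x => (x.1, -x.2))).map Prod.snd).sum = -(l.map Prod.snd).sum := by
  induction l with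
  | nil => simp
  | cons x l ih =>
    simp only [List.map_cons, List.sum_cons] at *
    omega

theorem map_neg_inj {l l' : List (T × ℤ)}
    (h : l.map (fun x => (x.1, -x.2)) = l') : l = l'.map (fun x => (x.1, -x.2)) := by
  subst h
  rw [List.map_map]
  conv_lhs => rw [← List.map_id l]
  apply List.map_congr_left
  intro x _
  simp

/-- A list of small integers with a small sum splits into two parts with small sums. -/
theorem split {B d : ℤ} (hd0 : -B ≤ d) (hd : d ≤ B) (l : List (T × ℤ))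
    (hl : ∀ x ∈ l, x.2 ≤ B ∧ -B ≤ x.2) (hlen : 2 ≤ l.length) (hs : (l.map Prod.snd).sum = d) :
      ∃ l1 l2, l = l1 ++ l2 ∧ l1 ≠ [] ∧ l2 ≠ [] ∧ -B ≤ (l1.map Prod.snd).sum ∧
        (l1.map Prod.snd).sum ≤ B ∧ -B ≤ (l2.map Prod.snd).sum ∧
        (l2.map Prod.snd).sum ≤ B := by
  rcases le_total 0 d with h | h
  · obtain ⟨l1, l2, rfl, h1, h2, h3, h4⟩ := split_pos h hd l hl hlen hs
    rw [List.map_append, List.sum_append] at hs
    exact ⟨l1, l2, rfl, h1, h2, by omega, by omega, by omega, by omega⟩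
  · obtain ⟨l1, l2, h0, h1, h2, h3, h4⟩ := split_pos (B := B) (d := -d) (by omega) (by omega)
      (l.map (fun x => (x.1, -x.2))) (by
        intro x hx
        obtain ⟨y, hy, rfl⟩ := List.mem_map.1 hx
        have := hl y hy
        exact ⟨by simp only; omega, by simp only; omega⟩) (by simpa using hlen)
        (by rw [sum_neg, hs])
    have h5 := map_neg_inj h0
    rw [List.map_append] at h5
    have hs1 := sum_neg l1
    have hs2 := sum_neg l2
    rw [h5, List.map_append, List.sum_append] at hs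
    refine ⟨_, _, h5, by simpa using h1, by simpa using h2, ?_, ?_, ?_, ?_⟩ <;> omega

/-- The nonterminals. -/
abbrev NT := ℕ × ℤ × ℕ

/-- Their meaning. -/
def Sem (ρ : T → ℕ) (lo hi : T → ℤ) (A : NT) : Set (List T) :=
  {w | w.Pairwise (fun x y => ρ x ≤ ρ y) ∧ (∀ x ∈ w, A.1 ≤ ρ x ∧ ρ x ≤ A.2.2) ∧
    ∃ p : List (T × ℤ), p.map Prod.fst = w ∧ (∀ x ∈ p, lo x.1 ≤ x.2 ∧ x.2 ≤ hi x.1) ∧
        (p.map Prod.snd).sum = A.2.1}

theorem sem_cat {ρ : T → ℕ} {lo hi : T → ℤ} {i m j : ℕ} {d1 d2 : ℤ} {w1 w2 : List T}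
    (hm : i ≤ m ∧ m ≤ j)
    (h1 : w1 ∈ Sem ρ lo hi (i, d1, m)) (h2 : w2 ∈ Sem ρ lo hi (m, d2, j)) :
    w1 ++ w2 ∈ Sem ρ lo hi (i, d1 + d2, j) := by
  obtain ⟨a1, a2, p1, a3, a4, a5⟩ := h1
  obtain ⟨b1, b2, p2, b3, b4, b5⟩ := h2
  refine ⟨?_, ?_, p1 ++ p2, by rw [List.map_append, a3, b3], ?_, ?_⟩
  · rw [List.pairwise_append]
    refine ⟨a1, b1, fun x hx y hy => ?_⟩
    have := (a2 x hx).2
    have := (b2 y hy).1
    simp only at *
    omega
  · intro x hx
    rcases List.mem_append.1 hx with hx | hx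
    · have := a2 x hx
      simp only at *
      omega
    · have := b2 x hx
      simp only at *
      omega
  · intro x hx
    rcases List.mem_append.1 hx with hx | hx
    · exact a4 x hx
    · exact b4 x hx
  · rw [List.map_append, List.sum_append, a5, b5]

open Classical in
/-- The rules. -/
noncomputable def rules [Fintype T] (ρ : T → ℕ) (lo hi : T → ℤ) (R : ℕ) (B : ℤ) :
    Finset (ContextFreeRule T NT) :=
  ((((Finset.range R ×ˢ Finset.Icc (-B) B ×ˢ Finset.range R ×ˢ Finset.range R ×ˢ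
    Finset.Icc (-B) B).filter (fun x => x.1 ≤ x.2.2.2.1 ∧ x.2.2.2.1 ≤ x.2.2.1)).image
      (fun x => (⟨(x.1, x.2.1, x.2.2.1), [Symbol.nonterminal (x.1, x.2.2.2.2, x.2.2.2.1),
        Symbol.nonterminal (x.2.2.2.1, x.2.1 - x.2.2.2.2, x.2.2.1)]⟩ : ContextFreeRule T NT))) ∪
  (((Finset.range R ×ˢ Finset.Icc (-B) B ×ˢ Finset.range R ×ˢ (Finset.univ : Finset T)).filter
    (fun x => x.1 ≤ ρ x.2.2.2 ∧ ρ x.2.2.2 ≤ x.2.2.1 ∧ lo x.2.2.2 ≤ x.2.1 ∧ x.2.1 ≤ hi x.2.2.2)).image
      (fun x => (⟨(x.1, x.2.1, x.2.2.1), [Symbol.terminal x.2.2.2]⟩ : ContextFreeRule T NT)))) ∪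
  ((Finset.range R ×ˢ Finset.range R).image
      (fun x => (⟨(x.1, 0, x.2), []⟩ : ContextFreeRule T NT)))

theorem mem_rules [Fintype T] {ρ : T → ℕ} {lo hi : T → ℤ} {R : ℕ} {B : ℤ}
    (r : ContextFreeRule T NT) : r ∈ rules ρ lo hi R B ↔
    ((∃ i d j m d1, (i < R ∧ (-B ≤ d ∧ d ≤ B) ∧ j < R ∧ m < R ∧ (-B ≤ d1 ∧ d1 ≤ B)) ∧
        (i ≤ m ∧ m ≤ j) ∧
      (⟨(i, d, j), [Symbol.nonterminal (i, d1, m),
        Symbol.nonterminal (m, d - d1, j)]⟩ : ContextFreeRule T NT) = r) ∨
    (∃ i d j t, (i < R ∧ (-B ≤ d ∧ d ≤ B) ∧ j < R) ∧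
        (i ≤ ρ t ∧ ρ t ≤ j ∧ lo t ≤ d ∧ d ≤ hi t) ∧
      (⟨(i, d, j), [Symbol.terminal t]⟩ : ContextFreeRule T NT) = r)) ∨
    (∃ i j, (i < R ∧ j < R) ∧ (⟨(i, 0, j), []⟩ : ContextFreeRule T NT) = r) := by
  classical
  unfold rules
  simp only [Finset.mem_union, Finset.mem_image, Finset.mem_filter, Finset.mem_product,
    Finset.mem_range, Finset.mem_Icc, Finset.mem_univ, Prod.exists, and_true, and_assoc]

/-- The grammar. -/
noncomputable def gram [Fintype T] (ρ : T → ℕ) (lo hi : T → ℤ) (R : ℕ) (B : ℤ) :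
    ContextFreeGrammar T where
  NT := NT
  initial := (0, 0, R - 1)
  rules := rules ρ lo hi R B

theorem sound [Fintype T] (ρ : T → ℕ) (lo hi : T → ℤ) (R : ℕ) (B : ℤ) :
    ∀ r ∈ (gram ρ lo hi R B).rules, ∀ w, Comp (Sem ρ lo hi) r.output w → w ∈ Sem ρ lo hi r.input := by
  intro r hr w hw
  replace hr := (mem_rules r).1 hr
  rcases hr with (⟨i, d, j, m, d1, -, hm, rfl⟩ | ⟨i, d, j, t, -, ht, rfl⟩) | ⟨i, j, -, rfl⟩
  · obtain ⟨w1, w', rfl, h1, w2, w3, rfl, h2, h3⟩ := hw
    simp only [Comp] at h3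
    subst h3
    have := sem_cat hm h1 h2
    rw [List.append_nil]
    rwa [add_sub_cancel] at this
  · obtain ⟨w', rfl, h3⟩ := hw
    simp only [Comp] at h3
    subst h3
    refine ⟨by simp, ?_, [(t, d)], by simp, ?_, by simp⟩
    · intro x hx
      simp only [List.mem_singleton] at hx
      subst hx
      exact ⟨ht.1, ht.2.1⟩
    · intro x hx
      simp only [List.mem_singleton] at hx
      subst hx
      exact ⟨ht.2.2.1, ht.2.2.2⟩
  · simp only [Comp] at hw
    subst hw
    exact ⟨by simp, by simp, [], rfl, by simp, by simp⟩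

theorem complete [Fintype T] (ρ : T → ℕ) (lo hi : T → ℤ) (R : ℕ) (B : ℤ)
    (hlo : ∀ t, -B ≤ lo t) (hhi : ∀ t, hi t ≤ B) : ∀ (n : ℕ)
    (p : List (T × ℤ)), p.length ≤ n → (∀ x ∈ p, lo x.1 ≤ x.2 ∧ x.2 ≤ hi x.1) →
    (p.map Prod.fst).Pairwise (fun x y => ρ x ≤ ρ y) → ∀ i j : ℕ, i < R → j < R → i ≤ j →
    (∀ x ∈ p.map Prod.fst, i ≤ ρ x ∧ ρ x ≤ j) → -B ≤ (p.map Prod.snd).sum →
    (p.map Prod.snd).sum ≤ B →
    p.map Prod.fst ∈ Gen (gram ρ lo hi R B) (i, (p.map Prod.snd).sum, j) := by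
  intro n
  induction n with
  | zero =>
    intro p hp _ _ i j hi hj hij _ _ _
    have : p = [] := List.length_eq_zero_iff.1 (by omega)
    subst this
    refine gen_of_rule (gram ρ lo _ R B) ⟨(i, 0, j), []⟩ ?_ _ rfl
    exact (mem_rules _).2 (Or.inr ⟨i, j, ⟨hi, hj⟩, rfl⟩)
  | succ n ih =>
    intro p hp hv hsort i j hi' hj hij hr hB1 hB2
    by_cases hlen : 2 ≤ p.length
    · have hsmall : ∀ x ∈ p, x.2 ≤ B ∧ -B ≤ x.2 := by
        intro x hx
        have h1 := hv x hx
        have h2 := hlo x.1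
        have h3 := hhi x.1
        omega
      obtain ⟨p1, p2, rfl, h1, h2, h3, h4, h5, h6⟩ := split hB1 hB2 p hsmall hlen rfl
      have hl1 : 0 < p1.length := List.length_pos_iff.2 h1
      have hl2 : 0 < p2.length := List.length_pos_iff.2 h2
      rw [List.length_append] at hp
      rw [List.map_append, List.pairwise_append] at hsort
      obtain ⟨hs1, hs2, hs3⟩ := hsort
      -- the rank of the first letter of the second part
      obtain ⟨m, him, hmj, hm1, hm2⟩ : ∃ m, i ≤ m ∧ m ≤ j ∧ (∀ x ∈ p1.map Prod.fst, ρ x ≤ m) ∧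
          (∀ x ∈ p2.map Prod.fst, m ≤ ρ x) := by
        match p2, h2 with
        | y :: p2, _ =>
          refine ⟨ρ y.1, ?_, ?_, ?_, ?_⟩
          · exact (hr y.1 (by simp)).1
          · exact (hr y.1 (by simp)).2
          · intro x hx
            exact hs3 x hx y.1 (by simp)
          · intro x hx
            rw [List.map_cons] at hx hs2
            rcases List.mem_cons.1 hx with rfl | hx
            · exact le_refl _
            · exact (List.pairwise_cons.1 hs2).1 x hx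
      have hmR : m < R := by omega
      have g1 := ih p1 (by omega) (fun x hx => hv x (List.mem_append_left _ hx)) hs1 i m hi' hmR him
        (fun x hx => ⟨(hr x (by rw [List.map_append]; exact List.mem_append_left _ hx)).1, hm1 x hx⟩)
        h3 h4
      have g2 := ih p2 (by omega) (fun x hx => hv x (List.mem_append_right _ hx)) hs2 m j hmR hj hmj
        (fun x hx => ⟨hm2 x hx, (hr x (by rw [List.map_append]; exact List.mem_append_right _ hx)).2⟩)
        h5 h6
      have hmem : (⟨(i, ((p1 ++ p2).map Prod.snd).sum, j),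
          [Symbol.nonterminal (i, (p1.map Prod.snd).sum, m),
          Symbol.nonterminal (m, ((p1 ++ p2).map Prod.snd).sum - (p1.map Prod.snd).sum, j)]⟩ :
          ContextFreeRule T NT) ∈ (gram ρ lo hi R B).rules := by
        refine (mem_rules _).2 (Or.inl (Or.inl ⟨i, _, j, m, (p1.map Prod.snd).sum, ?_, ⟨him, hmj⟩, rfl⟩))
        exact ⟨hi', ⟨hB1, hB2⟩, hj, hmR, h3, h4⟩
      refine gen_of_rule (gram ρ lo hi R B) _ hmem _ ?_
      refine ⟨p1.map Prod.fst, p2.map Prod.fst, by rw [List.map_append], g1, p2.map Prod.fst, [],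
        by simp, ?_, rfl⟩
      have : ((p1 ++ p2).map Prod.snd).sum - (p1.map Prod.snd).sum = (p2.map Prod.snd).sum := by
        rw [List.map_append, List.sum_append]; omega
      rw [this]
      exact g2
    · match p, hlen with
      | [], _ =>
        refine gen_of_rule (gram ρ lo _ R B) ⟨(i, 0, j), []⟩ ?_ _ rfl
        exact (mem_rules _).2 (Or.inr ⟨i, j, ⟨hi', hj⟩, rfl⟩)
      | [x], _ =>
        have hmem : (⟨(i, x.2, j), [Symbol.terminal x.1]⟩ : ContextFreeRule T NT) ∈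
            (gram ρ lo hi R B).rules := by
          refine (mem_rules _).2 (Or.inl (Or.inr ⟨i, x.2, j, x.1, ?_, ?_, rfl⟩))
          · simp only [List.map_cons, List.map_nil, List.sum_cons, List.sum_nil, add_zero] at hB1 hB2
            exact ⟨hi', ⟨hB1, hB2⟩, hj⟩
          · have h1 := hr x.1 (by simp)
            have h2 := hv x (by simp)
            exact ⟨h1.1, h1.2, h2.1, h2.2⟩
        have := gen_of_rule (gram ρ lo hi R B) _ hmem [x.1] ⟨[], rfl, rfl⟩
        simpa using this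
      | x :: y :: p, h => exact absurd (by simp) h

/-- Sorted words with one interval condition on a weighted count. -/
theorem cf_sorted_interval [Fintype T] (ρ : T → ℕ) (lo hi : T → ℤ) (hlh : ∀ t, lo t ≤ hi t) :
    IsCF (T := T) {w | w.Pairwise (fun x y => ρ x ≤ ρ y) ∧ (w.map lo).sum ≤ 0 ∧
      0 ≤ (w.map hi).sum} := by
  classical
  -- bounds
  obtain ⟨R, hR⟩ : ∃ R : ℕ, ∀ t, ρ t < R := by
    refine ⟨(Finset.univ.sup ρ) + 1, fun t => ?_⟩
    have : ρ t ≤ Finset.univ.sup ρ := Finset.le_sup (Finset.mem_univ t)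
    omega
  obtain ⟨B, hB1, hB2⟩ : ∃ B : ℕ, (∀ t, -(B : ℤ) ≤ lo t) ∧ (∀ t, hi t ≤ (B : ℤ)) := by
    refine ⟨Finset.univ.sup (fun t => (lo t).natAbs + (hi t).natAbs), fun t => ?_, fun t => ?_⟩
    · have : (lo t).natAbs + (hi t).natAbs ≤
        Finset.univ.sup (fun t => (lo t).natAbs + (hi t).natAbs) :=
        Finset.le_sup (f := fun t => (lo t).natAbs + (hi t).natAbs) (Finset.mem_univ t)
      omega
    · have : (lo t).natAbs + (hi t).natAbs ≤
        Finset.univ.sup (fun t => (lo t).natAbs + (hi t).natAbs) :=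
        Finset.le_sup (f := fun t => (lo t).natAbs + (hi t).natAbs) (Finset.mem_univ t)
      omega
  refine ⟨gram ρ lo hi (R + 1) B, ?_⟩
  ext w
  have key := language_eq (gram ρ lo hi (R + 1) B) (Sem ρ lo hi) (sound ρ lo hi (R + 1) B) (by
    rintro w ⟨h1, h2, p, rfl, h3, h4⟩
    have h4' : (p.map Prod.snd).sum = 0 := h4
    have := complete ρ lo hi (R + 1) B hB1 hB2 p.length p
      (le_refl _) h3 h1 0 R (by omega) (by omega) (by omega) (fun x _ => ⟨by omega, (hR x).le⟩)
      (by omega) (by omega)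
    rw [h4'] at this
    exact this) w
  have hmem : w ∈ ({w | w.Pairwise (fun x y => ρ x ≤ ρ y) ∧ (w.map lo).sum ≤ 0 ∧
      0 ≤ (w.map hi).sum} : Set (List T)) ↔ w ∈ Sem ρ lo hi (gram ρ lo hi (R + 1) B).initial := by
    constructor
    · rintro ⟨h1, h2, h3⟩
      obtain ⟨p, hp1, hp2, hp3⟩ := choose lo hi hlh w 0 h2 h3
      exact ⟨h1, fun x _ => ⟨Nat.zero_le _, (hR x).le⟩, p, hp1, hp2, hp3⟩
    · rintro ⟨h1, h2, p, rfl, h3, h4⟩
      refine ⟨h1, ?_, ?_⟩
      · have h5 : ((p.map Prod.fst).map lo).sum ≤ (p.map Prod.snd).sum := by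
          rw [List.map_map]
          exact List.sum_le_sum (fun x hx => (h3 x hx).1)
        exact h5.trans (le_of_eq h4)
      · have h5 : (p.map Prod.snd).sum ≤ ((p.map Prod.fst).map hi).sum := by
          rw [List.map_map]
          exact List.sum_le_sum (fun x hx => (h3 x hx).2)
        exact (le_of_eq h4.symm).trans h5
  rw [key, ← hmem]
  rfl

end Pool.Agent.H582R2.Ctr
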