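import Pool.Agent.H582R2.Ctr
import Pool.Agent.H582R2.Bdd

set_option autoImplicit false

/-!
The commutative language over four letters: its sorted parts are context-free for all orders of the
letters.
-/

namespace Pool.Agent.H582R2.Fl

open Pool.Agent.Helper336.CF Pool.Agent.H582R2.Ctr Pool.Agent.H582R2.Bdd

/-- The set of letter counts. -/
def Sx (x : Fin 4 → ℕ) : Prop :=
  (x 1 ≤ 3 * x 0 ∧ x 0 ≤ 3 * x 1) ∨ 3 * x 3 ≤ x 2 ∨ 3 * x 2 ≤ x 3 ∨
    (x 0 + x 1 = x 2 + x 3 ∧ x 0 ≤ x 2)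

/-- The language. -/
def Lg : Language (Fin 4) := {w | Sx (fun i => w.count i)}

theorem perm_closed (w v : List (Fin 4)) (h : w.Perm v) (hw : w ∈ Lg) : v ∈ Lg := by
  have : (fun i => v.count i) = (fun i => w.count i) := by
    funext i
    exact (h.count_eq i).symm
  show Sx (fun i => v.count i)
  rw [this]
  exact hw

theorem sum_map (f : Fin 4 → ℤ) (w : List (Fin 4)) :
    (w.map f).sum = f 0 * w.count 0 + f 1 * w.count 1 + f 2 * w.count 2 + f 3 * w.count 3 := by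
  induction w with
  | nil => simp
  | cons a w ih =>
    simp only [List.map_cons, List.sum_cons, ih, List.count_cons]
    fin_cases a <;> simp <;> ring

/-- Which pairs of letters are matched. -/
def eD (a b : Fin 4) : Prop :=
  (a = 0 ∧ b = 2) ∨ (a = 2 ∧ b = 0) ∨ (a = 1 ∧ b = 2) ∨ (a = 2 ∧ b = 1) ∨ (a = 1 ∧ b = 3) ∨
    (a = 3 ∧ b = 1)

def eD' (a b : Fin 4) : Prop :=
  (a = 0 ∧ b = 3) ∨ (a = 3 ∧ b = 0) ∨ (a = 1 ∧ b = 3) ∨ (a = 3 ∧ b = 1) ∨ (a = 1 ∧ b = 2) ∨
    (a = 2 ∧ b = 1)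

/-- The number of matched pairs. -/
def val (x : Fin 4 → ℕ) (a b : Fin 4) : ℕ :=
  if (a = 0 ∧ b = 2) ∨ (a = 2 ∧ b = 0) then x 0
  else if (a = 1 ∧ b = 3) ∨ (a = 3 ∧ b = 1) then x 3
  else if (a = 1 ∧ b = 2) ∨ (a = 2 ∧ b = 1) then x 1 - x 3 else 0

def val' (x : Fin 4 → ℕ) (a b : Fin 4) : ℕ :=
  if (a = 0 ∧ b = 3) ∨ (a = 3 ∧ b = 0) then x 0
  else if (a = 1 ∧ b = 2) ∨ (a = 2 ∧ b = 1) then x 2
  else if (a = 1 ∧ b = 3) ∨ (a = 3 ∧ b = 1) then x 1 - x 2 else 0

theorem arithD (x : Fin 4 → ℕ) (h1 : x 0 + x 1 = x 2 + x 3) (h2 : x 0 ≤ x 2) (p q r s : Fin 4)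
    (hpq : p ≠ q) (hpr : p ≠ r) (hps : p ≠ s) (hqr : q ≠ r) (hqs : q ≠ s) (hrs : r ≠ s) :
    x p = val x p q + val x p r + val x p s ∧ x q = val x p q + val x q r + val x q s ∧
    x r = val x q r + val x r s + val x p r ∧ x s = val x r s + val x q s + val x p s := by
  fin_cases p <;> fin_cases q <;> first | exact absurd rfl hpq | skip
  all_goals fin_cases r <;> first | exact absurd rfl hpr | exact absurd rfl hqr | skip
  all_goals fin_cases s <;> first | exact absurd rfl hps | exact absurd rfl hqs | exact absurd rfl hrs | skip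
  all_goals simp [val]
  all_goals omega

theorem arithD' (x : Fin 4 → ℕ) (h1 : x 0 + x 1 = x 2 + x 3) (h2 : x 0 ≤ x 3) (p q r s : Fin 4)
    (hpq : p ≠ q) (hpr : p ≠ r) (hps : p ≠ s) (hqr : q ≠ r) (hqs : q ≠ s) (hrs : r ≠ s) :
    x p = val' x p q + val' x p r + val' x p s ∧ x q = val' x p q + val' x q r + val' x q s ∧
    x r = val' x q r + val' x r s + val' x p r ∧ x s = val' x r s + val' x q s + val' x p s := by
  fin_cases p <;> fin_cases q <;> first | exact absurd rfl hpq | skip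
  all_goals fin_cases r <;> first | exact absurd rfl hpr | exact absurd rfl hqr | skip
  all_goals fin_cases s <;> first | exact absurd rfl hps | exact absurd rfl hqs | exact absurd rfl hrs | skip
  all_goals simp [val']
  all_goals omega

/-- The converse: letter counts of a word with matched pairs. -/
theorem convD (x : Fin 4 → ℕ) (p q r s : Fin 4)
    (hpq : p ≠ q) (hpr : p ≠ r) (hps : p ≠ s) (hqr : q ≠ r) (hqs : q ≠ s) (hrs : r ≠ s)
    (pq qr rs pr qs ps : ℕ) (h1 : ¬ eD p q → pq = 0) (h2 : ¬ eD q r → qr = 0)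
    (h3 : ¬ eD r s → rs = 0) (h4 : ¬ eD p r → pr = 0) (h5 : ¬ eD q s → qs = 0)
    (h6 : ¬ eD p s → ps = 0)
    (k1 : x p = pq + pr + ps) (k2 : x q = pq + qr + qs) (k3 : x r = qr + rs + pr)
    (k4 : x s = rs + qs + ps) : x 0 + x 1 = x 2 + x 3 ∧ x 0 ≤ x 2 := by
  fin_cases p <;> fin_cases q <;> first | exact absurd rfl hpq | skip
  all_goals fin_cases r <;> first | exact absurd rfl hpr | exact absurd rfl hqr | skip
  all_goals fin_cases s <;> first | exact absurd rfl hps | exact absurd rfl hqs | exact absurd rfl hrs | skip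
  all_goals simp [eD] at h1 h2 h3 h4 h5 h6
  all_goals simp at k1 k2 k3 k4
  all_goals omega

theorem convD' (x : Fin 4 → ℕ) (p q r s : Fin 4)
    (hpq : p ≠ q) (hpr : p ≠ r) (hps : p ≠ s) (hqr : q ≠ r) (hqs : q ≠ s) (hrs : r ≠ s)
    (pq qr rs pr qs ps : ℕ) (h1 : ¬ eD' p q → pq = 0) (h2 : ¬ eD' q r → qr = 0)
    (h3 : ¬ eD' r s → rs = 0) (h4 : ¬ eD' p r → pr = 0) (h5 : ¬ eD' q s → qs = 0)
    (h6 : ¬ eD' p s → ps = 0)
    (k1 : x p = pq + pr + ps) (k2 : x q = pq + qr + qs) (k3 : x r = qr + rs + pr)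
    (k4 : x s = rs + qs + ps) : x 0 + x 1 = x 2 + x 3 ∧ x 0 ≤ x 3 := by
  fin_cases p <;> fin_cases q <;> first | exact absurd rfl hpq | skip
  all_goals fin_cases r <;> first | exact absurd rfl hpr | exact absurd rfl hqr | skip
  all_goals fin_cases s <;> first | exact absurd rfl hps | exact absurd rfl hqs | exact absurd rfl hrs | skip
  all_goals simp [eD'] at h1 h2 h3 h4 h5 h6
  all_goals simp at k1 k2 k3 k4
  all_goals omega

theorem val_flag (x : Fin 4 → ℕ) (a b : Fin 4) (h : ¬ eD a b) : val x a b = 0 := by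
  unfold val
  unfold eD at h
  split_ifs with h1 h2 h3
  · exact absurd (by rcases h1 with ⟨rfl, rfl⟩ | ⟨rfl, rfl⟩ <;> simp) h
  · exact absurd (by rcases h2 with ⟨rfl, rfl⟩ | ⟨rfl, rfl⟩ <;> simp) h
  · exact absurd (by rcases h3 with ⟨rfl, rfl⟩ | ⟨rfl, rfl⟩ <;> simp) h
  · rfl

theorem val_flag' (x : Fin 4 → ℕ) (a b : Fin 4) (h : ¬ eD' a b) : val' x a b = 0 := by
  unfold val'
  unfold eD' at h
  split_ifs with h1 h2 h3
  · exact absurd (by rcases h1 with ⟨rfl, rfl⟩ | ⟨rfl, rfl⟩ <;> simp) h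
  · exact absurd (by rcases h2 with ⟨rfl, rfl⟩ | ⟨rfl, rfl⟩ <;> simp) h
  · exact absurd (by rcases h3 with ⟨rfl, rfl⟩ | ⟨rfl, rfl⟩ <;> simp) h
  · rfl

instance : DecidableRel eD := fun a b => by unfold eD; infer_instance

instance : DecidableRel eD' := fun a b => by unfold eD'; infer_instance

theorem nocross_aux : ∀ p q r s : Fin 4, (p ≠ q ∧ p ≠ r ∧ p ≠ s ∧ q ≠ r ∧ q ≠ s ∧ r ≠ s) →
    (¬ eD p r ∨ ¬ eD q s) ∨ (¬ eD' p r ∨ ¬ eD' q s) := by
  decide

/-- For every order of the letters one of the two matchings does not cross. -/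
theorem nocross (p q r s : Fin 4)
    (hpq : p ≠ q) (hpr : p ≠ r) (hps : p ≠ s) (hqr : q ≠ r) (hqs : q ≠ s) (hrs : r ≠ s) :
    (¬ eD p r ∨ ¬ eD q s) ∨ (¬ eD' p r ∨ ¬ eD' q s) :=
  nocross_aux p q r s ⟨hpq, hpr, hps, hqr, hqs, hrs⟩

theorem sx_of (x : Fin 4 → ℕ) (h1 : x 0 + x 1 = x 2 + x 3) (h2 : x 0 ≤ x 3) : Sx x := by
  unfold Sx
  omega

/-- The word with four blocks. -/
def W4 (p q r s : Fin 4) (a b c d : ℕ) : List (Fin 4) :=
  List.replicate a p ++ (List.replicate b q ++ (List.replicate c r ++ List.replicate d s))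

theorem count_W4 (p q r s : Fin 4)
    (hpq : p ≠ q) (hpr : p ≠ r) (hps : p ≠ s) (hqr : q ≠ r) (hqs : q ≠ s) (hrs : r ≠ s)
    (a b c d : ℕ) : (W4 p q r s a b c d).count p = a ∧ (W4 p q r s a b c d).count q = b ∧
      (W4 p q r s a b c d).count r = c ∧ (W4 p q r s a b c d).count s = d := by
  unfold W4
  simp only [List.count_append, List.count_replicate]
  simp [hpq, hpr, hps, hqr, hqs, hrs, hpq.symm, hpr.symm, hps.symm, hqr.symm, hqs.symm, hrs.symm]

theorem sorted_W4 (ρ : Fin 4 → ℕ) (p q r s : Fin 4) (h1 : ρ p ≤ ρ q) (h2 : ρ q ≤ ρ r)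
    (h3 : ρ r ≤ ρ s) (a b c d : ℕ) :
    (W4 p q r s a b c d).Pairwise (fun x y => ρ x ≤ ρ y) := by
  unfold W4
  simp only [List.pairwise_append, List.mem_append, List.mem_replicate]
  have hr : ∀ (n : ℕ) (t : Fin 4), (List.replicate n t).Pairwise (fun x y => ρ x ≤ ρ y) := by
    intro n t
    rw [List.pairwise_replicate]
    right
    exact le_refl _
  refine ⟨hr _ _, ⟨hr _ _, ⟨hr _ _, hr _ _, ?_⟩, ?_⟩, ?_⟩
  · rintro x ⟨-, rfl⟩ y ⟨-, rfl⟩; omega
  · rintro x ⟨-, rfl⟩ y (⟨-, rfl⟩ | ⟨-, rfl⟩) <;> omega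
  · rintro x ⟨-, rfl⟩ y (⟨-, rfl⟩ | ⟨-, rfl⟩ | ⟨-, rfl⟩) <;> omega

theorem cover (p q r s : Fin 4)
    (hpq : p ≠ q) (hpr : p ≠ r) (hps : p ≠ s) (hqr : q ≠ r) (hqs : q ≠ s) (hrs : r ≠ s)
    (a : Fin 4) : a = p ∨ a = q ∨ a = r ∨ a = s := by
  revert p q r s a
  decide

theorem eq_W4 (ρ : Fin 4 → ℕ) (p q r s : Fin 4)
    (h1 : ρ p < ρ q) (h2 : ρ q < ρ r) (h3 : ρ r < ρ s) (w : List (Fin 4))
    (hw : w.Pairwise (fun x y => ρ x ≤ ρ y)) :
    w = W4 p q r s (w.count p) (w.count q) (w.count r) (w.count s) := by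
  have hpq : p ≠ q := by rintro rfl; omega
  have hpr : p ≠ r := by rintro rfl; omega
  have hps : p ≠ s := by rintro rfl; omega
  have hqr : q ≠ r := by rintro rfl; omega
  have hqs : q ≠ s := by rintro rfl; omega
  have hrs : r ≠ s := by rintro rfl; omega
  refine List.Perm.eq_of_pairwise (le := fun x y => ρ x ≤ ρ y) ?_ hw
    (sorted_W4 ρ p q r s h1.le h2.le h3.le _ _ _ _) ?_
  · intro a b _ _ hab hba
    have hab : ρ a ≤ ρ b := hab
    have hba : ρ b ≤ ρ a := hba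
    rcases cover p q r s hpq hpr hps hqr hqs hrs a with rfl | rfl | rfl | rfl <;>
    rcases cover _ _ _ _ hpq hpr hps hqr hqs hrs b with rfl | rfl | rfl | rfl <;>
    first | rfl | (exfalso; omega)
  · rw [List.perm_iff_count]
    intro a
    obtain ⟨c1, c2, c3, c4⟩ := count_W4 p q r s hpq hpr hps hqr hqs hrs (w.count p) (w.count q)
      (w.count r) (w.count s)
    rcases cover p q r s hpq hpr hps hqr hqs hrs a with h | h | h | h
    · subst h; exact c1.symm
    · subst h; exact c2.symm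
    · subst h; exact c3.symm
    · subst h; exact c4.symm

theorem cf_C0 (ρ : Fin 4 → ℕ) : IsCF (T := Fin 4) {w | w.Pairwise (fun x y => ρ x ≤ ρ y) ∧
    (w.count 1 ≤ 3 * w.count 0 ∧ w.count 0 ≤ 3 * w.count 1)} := by
  have := cf_sorted_interval (T := Fin 4) ρ ![1, -3, 0, 0] ![3, -1, 0, 0] (by
    intro t; fin_cases t <;> simp)
  convert this using 1
  ext w
  simp only [Set.mem_ofPred_eq, sum_map]
  simp
  intro _
  constructor
  · rintro ⟨a, b⟩; omega
  · rintro ⟨a, b⟩; omega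

theorem cf_C1 (ρ : Fin 4 → ℕ) : IsCF (T := Fin 4) {w | w.Pairwise (fun x y => ρ x ≤ ρ y) ∧
    3 * w.count 3 ≤ w.count 2} := by
  have := cf_sorted_interval (T := Fin 4) ρ ![0, 0, -1, 3] ![0, 0, 0, 3] (by
    intro t; fin_cases t <;> simp)
  convert this using 1
  ext w
  simp only [Set.mem_ofPred_eq, sum_map]
  simp
  intro _
  omega

theorem cf_C2 (ρ : Fin 4 → ℕ) : IsCF (T := Fin 4) {w | w.Pairwise (fun x y => ρ x ≤ ρ y) ∧
    3 * w.count 2 ≤ w.count 3} := by
  have := cf_sorted_interval (T := Fin 4) ρ ![0, 0, 3, -1] ![0, 0, 3, 0] (by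
    intro t; fin_cases t <;> simp)
  convert this using 1
  ext w
  simp only [Set.mem_ofPred_eq, sum_map]
  simp
  intro _
  omega

theorem cf_sorted (ρ : Fin 4 → ℕ) (p q r s : Fin 4)
    (h1 : ρ p < ρ q) (h2 : ρ q < ρ r) (h3 : ρ r < ρ s) :
    IsCF (T := Fin 4) {w | w ∈ Lg ∧ w.Pairwise (fun x y => ρ x ≤ ρ y)} := by
  have hpq : p ≠ q := by rintro rfl; omega
  have hpr : p ≠ r := by rintro rfl; omega
  have hps : p ≠ s := by rintro rfl; omega
  have hqr : q ≠ r := by rintro rfl; omega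
  have hqs : q ≠ s := by rintro rfl; omega
  have hrs : r ≠ s := by rintro rfl; omega
  rcases nocross p q r s hpq hpr hps hqr hqs hrs with hc | hc
  · have key := cf_union (cf_union (cf_C0 ρ) (cf_C1 ρ)) (cf_union (cf_C2 ρ) (cf_K4 eD p q r s))
    convert key using 1
    ext w
    constructor
    · rintro ⟨hw, hs⟩
      have hw' : Sx (fun i => w.count i) := hw
      rcases hw' with hw' | hw' | hw' | ⟨k1, k2⟩
      · exact Or.inl (Or.inl ⟨hs, hw'⟩)
      · exact Or.inl (Or.inr ⟨hs, hw'⟩)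
      · exact Or.inr (Or.inl ⟨hs, hw'⟩)
      · refine Or.inr (Or.inr ?_)
        rw [mem_K4]
        obtain ⟨a1, a2, a3, a4⟩ := arithD (fun i => w.count i) k1 k2 p q r s hpq hpr hps hqr hqs hrs
        refine ⟨_, _, _, _, _, _, val_flag (fun i => w.count i) p q,
          val_flag (fun i => w.count i) q r, val_flag (fun i => w.count i) r s,
          val_flag (fun i => w.count i) p r, val_flag (fun i => w.count i) q s,
          val_flag (fun i => w.count i) p s, ?_, ?_⟩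
        · rcases hc with hc | hc
          · left; exact val_flag _ _ _ hc
          · right; exact val_flag _ _ _ hc
        · rw [← a1, ← a2, ← a3, ← a4]
          exact eq_W4 ρ p q r s h1 h2 h3 w hs
    · rintro ((⟨hs, hw⟩ | ⟨hs, hw⟩) | (⟨hs, hw⟩ | hw))
      · exact ⟨Or.inl hw, hs⟩
      · exact ⟨Or.inr (Or.inl hw), hs⟩
      · exact ⟨Or.inr (Or.inr (Or.inl hw)), hs⟩
      · obtain ⟨pq, qr, rs, pr, qs, ps, f1, f2, f3, f4, f5, f6, -, rfl⟩ := mem_K4.1 hw
        refine ⟨Or.inr (Or.inr (Or.inr ?_)), sorted_W4 ρ p q r s h1.le h2.le h3.le _ _ _ _⟩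
        obtain ⟨c1, c2, c3, c4⟩ := count_W4 p q r s hpq hpr hps hqr hqs hrs (pq + pr + ps)
          (pq + qr + qs) (qr + rs + pr) (rs + qs + ps)
        exact convD (fun i => (W4 p q r s (pq + pr + ps)
          (pq + qr + qs) (qr + rs + pr) (rs + qs + ps)).count i) p q r s hpq hpr hps hqr hqs hrs
          pq qr rs pr qs ps f1 f2 f3 f4 f5 f6 c1 c2 c3 c4
  · have key := cf_union (cf_union (cf_C0 ρ) (cf_C1 ρ)) (cf_union (cf_C2 ρ) (cf_K4 eD' p q r s))
    convert key using 1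
    ext w
    constructor
    · rintro ⟨hw, hs⟩
      have hw' : Sx (fun i => w.count i) := hw
      by_cases g0 : w.count 1 ≤ 3 * w.count 0 ∧ w.count 0 ≤ 3 * w.count 1
      · exact Or.inl (Or.inl ⟨hs, g0⟩)
      by_cases g1 : 3 * w.count 3 ≤ w.count 2
      · exact Or.inl (Or.inr ⟨hs, g1⟩)
      by_cases g2 : 3 * w.count 2 ≤ w.count 3
      · exact Or.inr (Or.inl ⟨hs, g2⟩)
      rcases hw' with hw' | hw' | hw' | ⟨k1, k2⟩
      · exact absurd hw' g0
      · exact absurd hw' g1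
      · exact absurd hw' g2
      · refine Or.inr (Or.inr ?_)
        rw [mem_K4]
        have k3 : w.count 0 ≤ w.count 3 := by
          have k1' : w.count 0 + w.count 1 = w.count 2 + w.count 3 := k1
          have k2' : w.count 0 ≤ w.count 2 := k2
          omega
        obtain ⟨a1, a2, a3, a4⟩ := arithD' (fun i => w.count i) k1 k3 p q r s hpq hpr hps hqr hqs hrs
        refine ⟨_, _, _, _, _, _, val_flag' (fun i => w.count i) p q,
          val_flag' (fun i => w.count i) q r, val_flag' (fun i => w.count i) r s,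
          val_flag' (fun i => w.count i) p r, val_flag' (fun i => w.count i) q s,
          val_flag' (fun i => w.count i) p s, ?_, ?_⟩
        · rcases hc with hc | hc
          · left; exact val_flag' _ _ _ hc
          · right; exact val_flag' _ _ _ hc
        · rw [← a1, ← a2, ← a3, ← a4]
          exact eq_W4 ρ p q r s h1 h2 h3 w hs
    · rintro ((⟨hs, hw⟩ | ⟨hs, hw⟩) | (⟨hs, hw⟩ | hw))
      · exact ⟨Or.inl hw, hs⟩
      · exact ⟨Or.inr (Or.inl hw), hs⟩
      · exact ⟨Or.inr (Or.inr (Or.inl hw)), hs⟩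
      · obtain ⟨pq, qr, rs, pr, qs, ps, f1, f2, f3, f4, f5, f6, -, rfl⟩ := mem_K4.1 hw
        refine ⟨?_, sorted_W4 ρ p q r s h1.le h2.le h3.le _ _ _ _⟩
        obtain ⟨c1, c2, c3, c4⟩ := count_W4 p q r s hpq hpr hps hqr hqs hrs (pq + pr + ps)
          (pq + qr + qs) (qr + rs + pr) (rs + qs + ps)
        obtain ⟨b1, b2⟩ := convD' (fun i => (W4 p q r s (pq + pr + ps)
          (pq + qr + qs) (qr + rs + pr) (rs + qs + ps)).count i) p q r s hpq hpr hps hqr hqs hrs
          pq qr rs pr qs ps f1 f2 f3 f4 f5 f6 c1 c2 c3 c4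
        exact sx_of (fun i => (W4 p q r s (pq + pr + ps)
          (pq + qr + qs) (qr + rs + pr) (rs + qs + ps)).count i) b1 b2

/-- For every order of the letters the sorted words of the language form a context-free set. -/
theorem side (σ : Equiv.Perm (Fin 4)) : ∃ g : ContextFreeGrammar (Fin 4), ∀ w : List (Fin 4),
    w ∈ g.language ↔ (w ∈ Lg ∧ List.Pairwise (fun x y => σ.symm x ≤ σ.symm y) w) := by
  obtain ⟨g, hg⟩ := cf_sorted (fun x => (σ.symm x).val) (σ 0) (σ 1) (σ 2) (σ 3)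
    (by simp) (by simp) (by simp)
  refine ⟨g, fun w => ?_⟩
  rw [hg]
  rfl

end Pool.Agent.H582R2.Fl
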