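import Pool.Agent.H582R2.Tree
import Pool.Agent.H582R2.Fl

set_option autoImplicit false

/-!
The commutative language is not context-free.
-/

namespace Pool.Agent.H582R2.NonCF

open Pool.Agent.Helper336.CF Pool.Agent.H582R2.Tree Pool.Agent.H582R2.Fl

/-- The letters of the five blocks. -/
def hb : ℕ → Fin 4
  | 0 => 0
  | 1 => 3
  | 2 => 2
  | 3 => 0
  | _ => 1

theorem count_hb (w : List ℕ) (hw : ∀ x ∈ w, x ≤ 4) :
    (w.map hb).count 0 = w.count 0 + w.count 3 ∧ (w.map hb).count 1 = w.count 4 ∧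
    (w.map hb).count 2 = w.count 2 ∧ (w.map hb).count 3 = w.count 1 := by
  induction w with
  | nil => simp
  | cons a w ih =>
    obtain ⟨h1, h2, h3, h4⟩ := ih (fun x hx => hw x (List.mem_cons_of_mem _ hx))
    have ha := hw a List.mem_cons_self
    simp only [List.map_cons, List.count_cons, h1, h2, h3, h4]
    interval_cases a <;> simp [hb] <;> omega

/-- The test word. -/
def z (n : ℕ) : List ℕ :=
  List.replicate n 0 ++ (List.replicate (8 * n) 1 ++ (List.replicate (8 * n) 2 ++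
    (List.replicate n 3 ++ List.replicate (14 * n) 4)))

theorem mem_z {n x : ℕ} (hx : x ∈ z n) : x ≤ 4 := by
  unfold z at hx
  simp only [List.mem_append, List.mem_replicate] at hx
  omega

theorem sorted_z (n : ℕ) : (z n).Pairwise (fun x y => x ≤ y) := by
  unfold z
  simp only [List.pairwise_append, List.mem_append, List.mem_replicate]
  have hr : ∀ (n : ℕ) (t : ℕ), (List.replicate n t).Pairwise (fun x y => x ≤ y) := by
    intro n t
    rw [List.pairwise_replicate]
    right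
    exact le_refl _
  refine ⟨hr _ _, ⟨hr _ _, ⟨hr _ _, ⟨hr _ _, hr _ _, ?_⟩, ?_⟩, ?_⟩, ?_⟩
  all_goals intro a ha b hb
  all_goals omega

theorem count_z (n : ℕ) : (z n).count 0 = n ∧ (z n).count 1 = 8 * n ∧ (z n).count 2 = 8 * n ∧
    (z n).count 3 = n ∧ (z n).count 4 = 14 * n := by
  unfold z
  simp only [List.count_append, List.count_replicate]
  simp

/-- Membership in the language of all words derived along sorted block words. -/
theorem sx_of_D {g : ContextFreeGrammar (Fin 4)} (hg : g.language = Lg) {j : ℕ} {w : List ℕ}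
    {X : Set (ℕ × g.NT × ℕ)} (hj : j ≤ 4)
    (hD : D g hb 0 [Symbol.nonterminal g.initial] w j X) :
    Sx ![w.count 0 + w.count 3, w.count 4, w.count 2, w.count 1] := by
  have h1 : w.map hb ∈ g.language := hD.sound
  rw [hg] at h1
  have h2 : Sx (fun i => (w.map hb).count i) := h1
  obtain ⟨c0, c1, c2, c3⟩ := count_hb w (fun x hx => by
    have := hD.bounds.2.1 x hx
    omega)
  unfold Sx at h2 ⊢
  simp only [c0, c1, c2, c3] at h2
  simpa using h2

theorem not_cf (g : ContextFreeGrammar (Fin 4)) (hg : g.language = Lg) : False := by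
  obtain ⟨K, hK⟩ := D.exists_pump g hb 4
  obtain ⟨n, hn⟩ : ∃ n, n = K + 1 := ⟨_, rfl⟩
  obtain ⟨c0, c1, c2, c3, c4⟩ := count_z n
  -- a derivation of the test word
  have hz : (z n).map hb ∈ g.language := by
    rw [hg]
    show Sx (fun i => ((z n).map hb).count i)
    obtain ⟨e0, e1, e2, e3⟩ := count_hb (z n) (fun x hx => mem_z hx)
    unfold Sx
    simp only [e0, e1, e2, e3, c0, c1, c2, c3, c4]
    omega
  obtain ⟨j, X, hD⟩ := exists_D g.initial ((z n).map hb) hz (z n) 0 rfl (sorted_z n)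
    (fun x _ => Nat.zero_le x)
  have hj : j ≤ 4 := by
    rcases hD.last with rfl | h
    · omega
    · exact mem_z h
  -- what every pump looks like
  have hpump : ∀ l ∈ X, ∀ u y, Pump g hb l u y → (∀ b, (u ++ y).count b ≤ (z n).count b) →
      (∀ b, b ≠ l.1 → b ≠ l.2.2 → (u ++ y).count b = 0) ∧
      ((u ++ y).count 0 + (u ++ y).count 3 + (u ++ y).count 4 =
        (u ++ y).count 1 + (u ++ y).count 2) := by
    intro l hl u y hp hc
    constructor
    · intro b h1 h2
      rw [List.count_eq_zero]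
      intro hb'
      rcases List.mem_append.1 hb' with hb' | hb'
      · exact h1 (hp.1 b hb')
      · exact h2 (hp.2.1 b hb')
    · obtain ⟨w', X', -, hD', hc'⟩ := hD.insert hl hp
      have hs := sx_of_D hg hj hD'
      rw [hc' 0, hc' 1, hc' 2, hc' 3, hc' 4, c0, c1, c2, c3, c4] at hs
      have h0 := hc 0
      have h1 := hc 1
      have h2 := hc 2
      have h3 := hc 3
      have h4 := hc 4
      rw [c0] at h0
      rw [c1] at h1
      rw [c2] at h2
      rw [c3] at h3
      rw [c4] at h4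
      generalize (u ++ y).count 0 = q0 at *
      generalize (u ++ y).count 1 = q1 at *
      generalize (u ++ y).count 2 = q2 at *
      generalize (u ++ y).count 3 = q3 at *
      generalize (u ++ y).count 4 = q4 at *
      unfold Sx at hs
      simp at hs
      omega
  have hlab : ∀ l ∈ X, l.1 ≤ l.2.2 ∧ l.2.2 ≤ 4 := by
    intro l hl
    have := hD.bounds.2.2 l hl
    omega
  -- the pumps for the first four blocks
  obtain ⟨l0, hl0, u0, y0, hp0, hc0, hβ0⟩ := hK 0 g.initial j (z n) X hj hD (by omega)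
  obtain ⟨l1, hl1, u1, y1, hp1, hc1, hβ1⟩ := hK 1 g.initial j (z n) X hj hD (by omega)
  obtain ⟨l2, hl2, u2, y2, hp2, hc2, hβ2⟩ := hK 2 g.initial j (z n) X hj hD (by omega)
  obtain ⟨l3, hl3, u3, y3, hp3, hc3, hβ3⟩ := hK 3 g.initial j (z n) X hj hD (by omega)
  -- a pump of type A
  have hA : ∃ l ∈ X, ∃ u y, Pump g hb l u y ∧ 1 ≤ (u ++ y).count 1 ∧ (u ++ y).count 2 = 0 ∧
      (u ++ y).count 4 = 0 ∧ (u ++ y).count 0 + (u ++ y).count 3 = (u ++ y).count 1 := by
    obtain ⟨a1, a2⟩ := hpump l1 hl1 u1 y1 hp1 hc1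
    obtain ⟨b1, b2⟩ := hpump l0 hl0 u0 y0 hp0 hc0
    have e1 := hlab l1 hl1
    have e0 := hlab l0 hl0
    have nc := hD.nocross l0 hl0 l1 hl1
    have a10 := a1 0
    have a11 := a1 1
    have a12 := a1 2
    have a13 := a1 3
    have a14 := a1 4
    have b10 := b1 0
    have b11 := b1 1
    have b12 := b1 2
    have b13 := b1 3
    have b14 := b1 4
    by_cases hcase : (u1 ++ y1).count 4 = 0 ∧ (u1 ++ y1).count 2 = 0
    · exact ⟨l1, hl1, u1, y1, hp1, hβ1, hcase.2, hcase.1, by omega⟩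
    · by_cases hcase0 : 1 ≤ (u0 ++ y0).count 1 ∧ (u0 ++ y0).count 2 = 0 ∧ (u0 ++ y0).count 4 = 0
      · exact ⟨l0, hl0, u0, y0, hp0, hcase0.1, hcase0.2.1, hcase0.2.2, by omega⟩
      · exfalso
        omega
  have hB : ∃ l ∈ X, ∃ u y, Pump g hb l u y ∧ 1 ≤ (u ++ y).count 2 ∧ (u ++ y).count 1 = 0 ∧
      (u ++ y).count 4 = 0 ∧ (u ++ y).count 0 + (u ++ y).count 3 = (u ++ y).count 2 := by
    obtain ⟨a1, a2⟩ := hpump l2 hl2 u2 y2 hp2 hc2
    obtain ⟨b1, b2⟩ := hpump l3 hl3 u3 y3 hp3 hc3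
    have e1 := hlab l2 hl2
    have e0 := hlab l3 hl3
    have nc := hD.nocross l2 hl2 l3 hl3
    have a10 := a1 0
    have a11 := a1 1
    have a12 := a1 2
    have a13 := a1 3
    have a14 := a1 4
    have b10 := b1 0
    have b11 := b1 1
    have b12 := b1 2
    have b13 := b1 3
    have b14 := b1 4
    by_cases hcase : (u2 ++ y2).count 4 = 0 ∧ (u2 ++ y2).count 1 = 0
    · exact ⟨l2, hl2, u2, y2, hp2, hβ2, hcase.2, hcase.1, by omega⟩
    · by_cases hcase0 : 1 ≤ (u3 ++ y3).count 2 ∧ (u3 ++ y3).count 1 = 0 ∧ (u3 ++ y3).count 4 = 0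
      · exact ⟨l3, hl3, u3, y3, hp3, hcase0.1, hcase0.2.1, hcase0.2.2, by omega⟩
      · exfalso
        omega
  obtain ⟨l, hl, u, y, hp, p1, p2, p4, p03⟩ := hA
  obtain ⟨l', hl', u', y', hp', q2, q1, q4, q03⟩ := hB
  obtain ⟨a, ha⟩ : ∃ a, a = (u ++ y).count 1 := ⟨_, rfl⟩
  obtain ⟨b, hb'⟩ : ∃ b, b = (u' ++ y').count 2 := ⟨_, rfl⟩
  -- insert both pumps many times
  obtain ⟨w', X', hX', hD', hc'⟩ := hD.insert_many hl hp (b * (20 * n + 1))
  obtain ⟨w'', X'', hX'', hD'', hc''⟩ := hD'.insert_many (hX' hl') hp' (a * (20 * n + 1))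
  have hs := sx_of_D hg hj hD''
  have k0 := hc'' 0
  have k1 := hc'' 1
  have k2 := hc'' 2
  have k3 := hc'' 3
  have k4 := hc'' 4
  rw [hc' 0, c0] at k0
  rw [hc' 1, c1, q1, ← ha] at k1
  rw [hc' 2, c2, p2, ← hb'] at k2
  rw [hc' 3, c3] at k3
  rw [hc' 4, c4, p4, q4] at k4
  have ks : w''.count 0 + w''.count 3 = 2 * n + 2 * (a * b * (20 * n + 1)) := by
    rw [k0, k3]
    have h1 : (u ++ y).count 0 + (u ++ y).count 3 = a := by omega
    have h2 : (u' ++ y').count 0 + (u' ++ y').count 3 = b := by omega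
    calc _ = 2 * n + b * (20 * n + 1) * ((u ++ y).count 0 + (u ++ y).count 3) +
        a * (20 * n + 1) * ((u' ++ y').count 0 + (u' ++ y').count 3) := by ring
      _ = _ := by rw [h1, h2]; ring
  have k1' : w''.count 1 = 8 * n + a * b * (20 * n + 1) := by rw [k1]; ring
  have k2' : w''.count 2 = 8 * n + a * b * (20 * n + 1) := by rw [k2]; ring
  have k4' : w''.count 4 = 14 * n := by rw [k4]; ring
  have hM : 20 * n + 1 ≤ a * b * (20 * n + 1) := by
    have : 1 ≤ a * b := Nat.one_le_iff_ne_zero.2 (by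
      intro h0
      rcases Nat.mul_eq_zero.1 h0 with h | h <;> omega)
    exact Nat.le_mul_of_pos_left _ this
  rw [ks, k1', k2', k4'] at hs
  generalize a * b * (20 * n + 1) = M at hs hM
  unfold Sx at hs
  simp at hs
  omega

end Pool.Agent.H582R2.NonCF
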