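import Pool.Agent.Helper336.CF

set_option autoImplicit false

/-!
Derivations of a context-free grammar along sorted words over block indices. Every node of a
derivation tree is labelled by the block index before it, its nonterminal and the block index after
it; `D` also records the set of all labels of the nodes.
-/

namespace Pool.Agent.H582R2.Tree

open Pool.Agent.Helper336.CF

variable {T : Type}

/-- `D g h i α w j X`: the sentential form `α` derives `w.map h`, the word `w` is sorted, the block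
index goes from `i` to `j` and `X` is the set of the labels of the nodes of the derivation. -/
inductive D (g : ContextFreeGrammar T) (h : ℕ → T) :
    ℕ → List (Symbol T g.NT) → List ℕ → ℕ → Set (ℕ × g.NT × ℕ) → Prop
  | nil (i : ℕ) : D g h i [] [] i ∅
  | term {i b j : ℕ} {α : List (Symbol T g.NT)} {w : List ℕ} {X : Set (ℕ × g.NT × ℕ)} :
      i ≤ b → D g h b α w j X → D g h i (Symbol.terminal (h b) :: α) (b :: w) j X
  | node {i m j : ℕ} {r : ContextFreeRule T g.NT} {α : List (Symbol T g.NT)} {w1 w2 : List ℕ}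
      {X1 X2 : Set (ℕ × g.NT × ℕ)} :
      r ∈ g.rules → D g h i r.output w1 m X1 → D g h m α w2 j X2 →
        D g h i (Symbol.nonterminal r.input :: α) (w1 ++ w2) j (X1 ∪ X2 ∪ {(i, r.input, m)})

variable {g : ContextFreeGrammar T} {h : ℕ → T}

theorem D.append {i m j : ℕ} {α1 α2 : List (Symbol T g.NT)} {w1 w2 : List ℕ}
    {X1 X2 : Set (ℕ × g.NT × ℕ)} (h1 : D g h i α1 w1 m X1) (h2 : D g h m α2 w2 j X2) :
    D g h i (α1 ++ α2) (w1 ++ w2) j (X1 ∪ X2) := by
  induction h1 with
  | nil i => simpa using h2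
  | term hb _ ih => exact D.term hb (ih h2)
  | @node i m j r α w1 w2' Y1 Y2 hr hd1 hd2 _ ih2 =>
    have := D.node hr hd1 (ih2 h2)
    have e1 : (Y1 ∪ Y2 ∪ {(i, r.input, m)}) ∪ X2 = Y1 ∪ (Y2 ∪ X2) ∪ {(i, r.input, m)} := by
      ext x
      simp only [Set.mem_union]
      tauto
    rw [e1, List.append_assoc]
    exact this

theorem D.last {i j : ℕ} {α : List (Symbol T g.NT)} {w : List ℕ} {X : Set (ℕ × g.NT × ℕ)}
    (h1 : D g h i α w j X) : j = i ∨ j ∈ w := by
  induction h1 with
  | nil i => exact Or.inl rfl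
  | term hb _ ih =>
    right
    rcases ih with rfl | ih
    · exact List.mem_cons_self
    · exact List.mem_cons_of_mem _ ih
  | node hr hd1 hd2 ih1 ih2 =>
    rcases ih2 with rfl | ih2
    · rcases ih1 with rfl | ih1
      · exact Or.inl rfl
      · exact Or.inr (List.mem_append_left _ ih1)
    · exact Or.inr (List.mem_append_right _ ih2)

theorem D.bounds {i j : ℕ} {α : List (Symbol T g.NT)} {w : List ℕ} {X : Set (ℕ × g.NT × ℕ)}
    (h1 : D g h i α w j X) : i ≤ j ∧ (∀ x ∈ w, i ≤ x ∧ x ≤ j) ∧
      (∀ l ∈ X, i ≤ l.1 ∧ l.1 ≤ l.2.2 ∧ l.2.2 ≤ j) := by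
  induction h1 with
  | nil i => exact ⟨le_refl _, by simp, by simp⟩
  | @term i b j α w X hb _ ih =>
    obtain ⟨a1, a2, a3⟩ := ih
    refine ⟨by omega, ?_, ?_⟩
    · intro x hx
      rcases List.mem_cons.1 hx with rfl | hx
      · exact ⟨hb, a1⟩
      · have := a2 x hx
        omega
    · intro l hl
      have := a3 l hl
      omega
  | @node i m j r α w1 w2 X1 X2 hr hd1 hd2 ih1 ih2 =>
    obtain ⟨a1, a2, a3⟩ := ih1
    obtain ⟨b1, b2, b3⟩ := ih2
    refine ⟨by omega, ?_, ?_⟩
    · intro x hx
      rcases List.mem_append.1 hx with hx | hx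
      · have := a2 x hx
        omega
      · have := b2 x hx
        omega
    · rintro l ((hl | hl) | hl)
      · have := a3 l hl
        omega
      · have := b3 l hl
        omega
      · rw [Set.mem_singleton_iff] at hl
        subst hl
        exact ⟨le_refl _, a1, b1⟩

/-- Labels of one derivation do not cross. -/
theorem D.nocross {i j : ℕ} {α : List (Symbol T g.NT)} {w : List ℕ} {X : Set (ℕ × g.NT × ℕ)}
    (h1 : D g h i α w j X) : ∀ l ∈ X, ∀ l' ∈ X, l.2.2 ≤ l'.1 ∨ l'.2.2 ≤ l.1 ∨
      (l.1 ≤ l'.1 ∧ l'.2.2 ≤ l.2.2) ∨ (l'.1 ≤ l.1 ∧ l.2.2 ≤ l'.2.2) := by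
  induction h1 with
  | nil i => simp
  | term hb _ ih => exact ih
  | @node i m j r α w1 w2 X1 X2 hr hd1 hd2 ih1 ih2 =>
    obtain ⟨a1, a2, a3⟩ := hd1.bounds
    obtain ⟨b1, b2, b3⟩ := hd2.bounds
    rintro l ((hl | hl) | hl) l' ((hl' | hl') | hl')
    · exact ih1 l hl l' hl'
    · have := a3 l hl
      have := b3 l' hl'
      omega
    · have := a3 l hl
      rw [Set.mem_singleton_iff] at hl'
      subst hl'
      simp only
      omega
    · have := b3 l hl
      have := a3 l' hl'
      omega
    · exact ih2 l hl l' hl'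
    · have := b3 l hl
      rw [Set.mem_singleton_iff] at hl'
      subst hl'
      simp only
      omega
    · have := a3 l' hl'
      rw [Set.mem_singleton_iff] at hl
      subst hl
      simp only
      omega
    · have := b3 l' hl'
      rw [Set.mem_singleton_iff] at hl
      subst hl
      simp only
      omega
    · rw [Set.mem_singleton_iff] at hl hl'
      subst hl
      subst hl'
      simp only
      omega

theorem D.inputs {i j : ℕ} {α : List (Symbol T g.NT)} {w : List ℕ} {X : Set (ℕ × g.NT × ℕ)}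
    (h1 : D g h i α w j X) : ∀ l ∈ X, ∃ r ∈ g.rules, r.input = l.2.1 := by
  induction h1 with
  | nil i => simp
  | term hb _ ih => exact ih
  | @node i m j r α w1 w2 X1 X2 hr hd1 hd2 ih1 ih2 =>
    rintro l ((hl | hl) | hl)
    · exact ih1 l hl
    · exact ih2 l hl
    · rw [Set.mem_singleton_iff] at hl
      subst hl
      exact ⟨r, hr, rfl⟩

theorem D.sound {i j : ℕ} {α : List (Symbol T g.NT)} {w : List ℕ} {X : Set (ℕ × g.NT × ℕ)}
    (h1 : D g h i α w j X) : g.Derives α ((w.map h).map Symbol.terminal) := by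
  induction h1 with
  | nil i => exact Relation.ReflTransGen.refl
  | @term i b j α w X hb _ ih =>
    have := ih.append_left [Symbol.terminal (h b)]
    simpa using this
  | @node i m j r α w1 w2 X1 X2 hr hd1 hd2 ih1 ih2 =>
    have h2 : g.Produces [Symbol.nonterminal r.input] r.output :=
      ⟨r, hr, ContextFreeRule.Rewrites.input_output⟩
    have h3 := h2.trans_derives ih1
    have := derives_append (g := g) h3 ih2
    simpa using this

theorem exists_D_of_comp (α : List (Symbol T g.NT)) (z : List T)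
    (hz : Comp (fun A => {z | ∀ (w : List ℕ) (i : ℕ), z = w.map h →
      w.Pairwise (fun x y => x ≤ y) → (∀ x ∈ w, i ≤ x) →
        ∃ m X, D g h i [Symbol.nonterminal A] w m X}) α z) :
    ∀ (w : List ℕ) (i : ℕ), z = w.map h →
      w.Pairwise (fun x y => x ≤ y) → (∀ x ∈ w, i ≤ x) → ∃ m X, D g h i α w m X := by
  induction α generalizing z with
  | nil =>
    intro w i hw _ _
    simp only [Comp] at hz
    subst hz
    have : w = [] := by
      cases w with
      | nil => rfl
      | cons a w => simp at hw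
    subst this
    exact ⟨i, ∅, D.nil i⟩
  | cons s α ih =>
    intro w i hw hs hi
    cases s with
    | terminal t =>
      obtain ⟨z', rfl, hz'⟩ := hz
      cases w with
      | nil => simp at hw
      | cons b w =>
        rw [List.map_cons, List.cons.injEq] at hw
        obtain ⟨rfl, hw⟩ := hw
        rw [List.pairwise_cons] at hs
        obtain ⟨m, X, hD⟩ := ih z' hz' w b hw hs.2 hs.1
        exact ⟨m, X, D.term (hi b List.mem_cons_self) hD⟩
    | nonterminal A =>
      obtain ⟨z1, z2, rfl, hA, hz'⟩ := hz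
      obtain ⟨w1, w2, rfl, h1, h2⟩ := List.map_eq_append_iff.1 hw.symm
      rw [List.pairwise_append] at hs
      obtain ⟨s1, s2, s3⟩ := hs
      obtain ⟨m, X, hD⟩ := hA w1 i h1.symm s1 (fun x hx => hi x (List.mem_append_left _ hx))
      obtain ⟨j, X', hD'⟩ := ih z2 hz' w2 m h2.symm s2 (by
        intro x hx
        rcases hD.last with rfl | hm
        · exact hi x (List.mem_append_right _ hx)
        · exact s3 m hm x hx)
      exact ⟨j, X ∪ X', by simpa using hD.append hD'⟩

theorem exists_D (A : g.NT) (z : List T) (hz : z ∈ Gen g A) (w : List ℕ) (i : ℕ)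
    (hw : z = w.map h) (hs : w.Pairwise (fun x y => x ≤ y)) (hi : ∀ x ∈ w, i ≤ x) :
    ∃ m X, D g h i [Symbol.nonterminal A] w m X := by
  have := comp_of_derives g (fun A => {z | ∀ (w : List ℕ) (i : ℕ), z = w.map h →
      w.Pairwise (fun x y => x ≤ y) → (∀ x ∈ w, i ≤ x) →
        ∃ m X, D g h i [Symbol.nonterminal A] w m X}) (by
    intro r hr z hz w i hw hs hi
    obtain ⟨m, X, hD⟩ := exists_D_of_comp r.output z hz w i hw hs hi
    have := D.node hr hD (D.nil m)
    exact ⟨m, _, by simpa using this⟩) [Symbol.nonterminal A] z hz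
  exact exists_D_of_comp _ _ this w i hw hs hi

/-- Replacing a subtree with a given label. -/
theorem D.occ {i j : ℕ} {α : List (Symbol T g.NT)} {w : List ℕ} {X : Set (ℕ × g.NT × ℕ)}
    (h1 : D g h i α w j X) : ∀ l ∈ X, ∃ u w0 y X0, w = u ++ w0 ++ y ∧
      D g h l.1 [Symbol.nonterminal l.2.1] w0 l.2.2 X0 ∧
      ∀ w1 X1, X0 ⊆ X1 → D g h l.1 [Symbol.nonterminal l.2.1] w1 l.2.2 X1 →
        ∃ X2, X ⊆ X2 ∧ D g h i α (u ++ w1 ++ y) j X2 := by
  induction h1 with
  | nil i => simp
  | @term i b j α w X hb _ ih =>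
    intro l hl
    obtain ⟨u, w0, y, X0, rfl, a2, a3⟩ := ih l hl
    refine ⟨b :: u, w0, y, X0, by simp, a2, ?_⟩
    intro w1 X1 hX hD
    obtain ⟨X2, b1, b2⟩ := a3 w1 X1 hX hD
    exact ⟨X2, b1, D.term hb b2⟩
  | @node i m j r α w1 w2 X1 X2 hr hd1 hd2 ih1 ih2 =>
    rintro l ((hl | hl) | hl)
    · obtain ⟨u, w0, y, X0, rfl, a2, a3⟩ := ih1 l hl
      refine ⟨u, w0, y ++ w2, X0, by simp [List.append_assoc], a2, ?_⟩
      intro w1' X1' hX hD
      obtain ⟨X2', b1, b2⟩ := a3 w1' X1' hX hD
      refine ⟨X2' ∪ X2 ∪ {(i, r.input, m)}, ?_, ?_⟩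
      · intro x hx
        rcases hx with (hx | hx) | hx
        · exact Or.inl (Or.inl (b1 hx))
        · exact Or.inl (Or.inr hx)
        · exact Or.inr hx
      · have := D.node hr b2 hd2
        simpa [List.append_assoc] using this
    · obtain ⟨u, w0, y, X0, rfl, a2, a3⟩ := ih2 l hl
      refine ⟨w1 ++ u, w0, y, X0, by simp [List.append_assoc], a2, ?_⟩
      intro w1' X1' hX hD
      obtain ⟨X2', b1, b2⟩ := a3 w1' X1' hX hD
      refine ⟨X1 ∪ X2' ∪ {(i, r.input, m)}, ?_, ?_⟩
      · intro x hx
        rcases hx with (hx | hx) | hx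
        · exact Or.inl (Or.inl hx)
        · exact Or.inl (Or.inr (b1 hx))
        · exact Or.inr hx
      · have := D.node hr hd1 b2
        simpa [List.append_assoc] using this
    · rw [Set.mem_singleton_iff] at hl
      subst hl
      refine ⟨[], w1, w2, X1 ∪ {(i, r.input, m)}, by simp, ?_, ?_⟩
      · have := D.node hr hd1 (D.nil m)
        simpa using this
      · intro w1' X1' hX hD
        refine ⟨X1' ∪ X2, ?_, ?_⟩
        · intro x hx
          rcases hx with (hx | hx) | hx
          · exact Or.inl (hX (Or.inl hx))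
          · exact Or.inr hx
          · exact Or.inl (hX (Or.inr hx))
        · simpa using hD.append hd2

/-- A lowest node with a given label. -/
theorem D.low {i j : ℕ} {α : List (Symbol T g.NT)} {w : List ℕ} {X : Set (ℕ × g.NT × ℕ)}
    (h1 : D g h i α w j X) : ∀ l ∈ X, ∃ u w0 y X0, ∃ r ∈ g.rules, r.input = l.2.1 ∧
      w = u ++ w0 ++ y ∧ D g h l.1 r.output w0 l.2.2 X0 ∧ l ∉ X0 ∧ X0 ⊆ X ∧
      (∀ x ∈ u, i ≤ x ∧ x ≤ l.1) ∧ (∀ x ∈ y, l.2.2 ≤ x ∧ x ≤ j) ∧
      ∀ w1 X1, D g h l.1 [Symbol.nonterminal l.2.1] w1 l.2.2 X1 →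
        ∃ X2, X1 ⊆ X2 ∧ D g h i α (u ++ w1 ++ y) j X2 := by
  induction h1 with
  | nil i => simp
  | @term i b j α w X hb hd ih =>
    intro l hl
    obtain ⟨u, w0, y, X0, r, a0, a1, rfl, a3, a4, a5, a6, a7, a8⟩ := ih l hl
    have hbl := hd.bounds.2.2 l hl
    refine ⟨b :: u, w0, y, X0, r, a0, a1, by simp, a3, a4, a5, ?_, a7, ?_⟩
    · intro x hx
      rcases List.mem_cons.1 hx with rfl | hx
      · omega
      · have := a6 x hx
        omega
    · intro w1 X1 hD
      obtain ⟨X2, b1, b2⟩ := a8 w1 X1 hD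
      exact ⟨X2, b1, D.term hb b2⟩
  | @node i m j r α w1 w2 X1 X2 hr hd1 hd2 ih1 ih2 =>
    intro l hl
    obtain ⟨c1, c2, c3⟩ := hd1.bounds
    obtain ⟨e1, e2, e3⟩ := hd2.bounds
    by_cases hl1 : l ∈ X1
    · obtain ⟨u, w0, y, X0, r', a0, a1, rfl, a3, a4, a5, a6, a7, a8⟩ := ih1 l hl1
      have hbl := c3 l hl1
      refine ⟨u, w0, y ++ w2, X0, r', a0, a1, by simp [List.append_assoc], a3, a4,
        fun x hx => Or.inl (Or.inl (a5 hx)), a6, ?_, ?_⟩
      · intro x hx
        rcases List.mem_append.1 hx with hx | hx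
        · have := a7 x hx
          omega
        · have := e2 x hx
          omega
      · intro w1' X1' hD
        obtain ⟨X2', b1, b2⟩ := a8 w1' X1' hD
        refine ⟨X2' ∪ X2 ∪ {(i, r.input, m)}, fun x hx => Or.inl (Or.inl (b1 hx)), ?_⟩
        have := D.node hr b2 hd2
        simpa [List.append_assoc] using this
    by_cases hl2 : l ∈ X2
    · obtain ⟨u, w0, y, X0, r', a0, a1, rfl, a3, a4, a5, a6, a7, a8⟩ := ih2 l hl2
      have hbl := e3 l hl2
      refine ⟨w1 ++ u, w0, y, X0, r', a0, a1, by simp [List.append_assoc], a3, a4,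
        fun x hx => Or.inl (Or.inr (a5 hx)), ?_, a7, ?_⟩
      · intro x hx
        rcases List.mem_append.1 hx with hx | hx
        · have := c2 x hx
          omega
        · have := a6 x hx
          omega
      · intro w1' X1' hD
        obtain ⟨X2', b1, b2⟩ := a8 w1' X1' hD
        refine ⟨X1 ∪ X2' ∪ {(i, r.input, m)}, fun x hx => Or.inl (Or.inr (b1 hx)), ?_⟩
        have := D.node hr hd1 b2
        simpa [List.append_assoc] using this
    · rcases hl with (hl | hl) | hl
      · exact absurd hl hl1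
      · exact absurd hl hl2
      rw [Set.mem_singleton_iff] at hl
      subst hl
      refine ⟨[], w1, w2, X1, r, hr, rfl, by simp, hd1, hl1,
        fun x hx => Or.inl (Or.inl hx), by simp, e2, ?_⟩
      intro w1' X1' hD
      exact ⟨X1' ∪ X2, fun x hx => Or.inl hx, by simpa using hD.append hd2⟩

/-- Pumps at a label. -/
def Pump (g : ContextFreeGrammar T) (h : ℕ → T) (l : ℕ × g.NT × ℕ) (u y : List ℕ) : Prop :=
  (∀ x ∈ u, x = l.1) ∧ (∀ x ∈ y, x = l.2.2) ∧
    ∀ w1 X1, D g h l.1 [Symbol.nonterminal l.2.1] w1 l.2.2 X1 →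
        ∃ X2, X1 ⊆ X2 ∧ D g h l.1 [Symbol.nonterminal l.2.1] (u ++ w1 ++ y) l.2.2 X2

/-- Insertion of a pump. -/
theorem D.insert {i j : ℕ} {α : List (Symbol T g.NT)} {w : List ℕ} {X : Set (ℕ × g.NT × ℕ)}
    (h1 : D g h i α w j X) {l : ℕ × g.NT × ℕ} (hl : l ∈ X) {u y : List ℕ} (hp : Pump g h l u y) :
    ∃ w' X', X ⊆ X' ∧ D g h i α w' j X' ∧
      ∀ b, w'.count b = w.count b + (u ++ y).count b := by
  obtain ⟨u', w0, y', X0, rfl, a2, a3⟩ := h1.occ l hl
  obtain ⟨X2, b1, b2⟩ := hp.2.2 w0 X0 a2
  obtain ⟨X3, c1, c2⟩ := a3 _ X2 b1 b2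
  refine ⟨_, X3, c1, c2, fun b => ?_⟩
  simp only [List.count_append]
  omega

theorem D.insert_many {i j : ℕ} {α : List (Symbol T g.NT)} {w : List ℕ}
    {X : Set (ℕ × g.NT × ℕ)}
    (h1 : D g h i α w j X) {l : ℕ × g.NT × ℕ} (hl : l ∈ X) {u y : List ℕ} (hp : Pump g h l u y)
    (n : ℕ) :
    ∃ w' X', X ⊆ X' ∧ D g h i α w' j X' ∧
      ∀ b, w'.count b = w.count b + n * (u ++ y).count b := by
  induction n with
  | zero => exact ⟨w, X, subset_refl _, h1, by simp⟩
  | succ n ih =>
    obtain ⟨w', X', a1, a2, a3⟩ := ih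
    obtain ⟨w'', X'', b1, b2, b3⟩ := a2.insert (a1 hl) hp
    refine ⟨w'', X'', a1.trans b1, b2, fun b => ?_⟩
    rw [b3, a3]
    ring

/-- Without a pump that contains the block index `β`, the number of letters `β` is bounded. -/
theorem D.bound (g : ContextFreeGrammar T) (h : ℕ → T) (d β : ℕ)
    (hd : ∀ r ∈ g.rules, r.output.length ≤ d) : ∀ (n : ℕ) (Λ : Finset (ℕ × g.NT × ℕ)),
    Λ.card ≤ n → ∀ (α : List (Symbol T g.NT)) (i j : ℕ) (w : List ℕ) (X : Set (ℕ × g.NT × ℕ)),
      D g h i α w j X → (∀ l ∈ X, l ∈ Λ) →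
      (∀ l ∈ X, ∀ u y, Pump g h l u y → (∀ b, (u ++ y).count b ≤ w.count b) →
        (u ++ y).count β = 0) →
      w.count β ≤ α.length * (d + 1) ^ n := by
  classical
  intro n
  induction n with
  | zero =>
    intro Λ hΛ α
    have hΛ' : Λ = ∅ := Finset.card_eq_zero.1 (by omega)
    subst hΛ'
    induction α with
    | nil =>
      intro i j w X hD _ _
      cases hD
      simp
    | cons s α ih =>
      intro i j w X hD hX hp
      cases hD with
      | term hb hD =>
        have := ih _ _ _ _ hD hX (fun l hl => by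
          have := hX l hl
          simp at this)
        rw [List.count_cons, List.length_cons]
        simp only [pow_zero, mul_one] at *
        split_ifs <;> omega
      | node hr hd1 hd2 =>
        have := hX _ (Or.inr rfl)
        simp at this
  | succ n ihn =>
    intro Λ hΛ α
    induction α with
    | nil =>
      intro i j w X hD _ _
      cases hD
      simp
    | cons s α ih =>
      intro i j w X hD hX hp
      have hpos : 1 ≤ (d + 1) ^ (n + 1) := Nat.one_le_pow _ _ (by omega)
      cases hD with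
      | @term _ b _ _ w X hb hD =>
        have := ih _ _ _ _ hD hX (fun l hl u y hpu hc => hp l hl u y hpu (by
          intro b'
          have := hc b'
          rw [List.count_cons]
          omega))
        rw [List.count_cons, List.length_cons, Nat.add_mul]
        split_ifs <;> omega
      | @node _ m _ r _ w1 w2 X1 X2 hr hd1 hd2 =>
        have h2 := ih _ _ _ _ hd2 (fun l hl => hX l (Or.inl (Or.inr hl)))
          (fun l hl u y hpu hc => hp l (Or.inl (Or.inr hl)) u y hpu (by
            intro b'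
            have := hc b'
            simp only [List.count_append] at this ⊢
            omega))
        -- the first symbol
        have hroot : D g h i [Symbol.nonterminal r.input] w1 m (X1 ∪ {(i, r.input, m)}) := by
          have := D.node hr hd1 (D.nil m)
          simpa using this
        obtain ⟨u, w0, y, X0, r', a0, a1, a2, a3, a4, a5, a6, a7, a8⟩ :=
          hroot.low (i, r.input, m) (Or.inr rfl)
        subst a2
        have hpump : Pump g h (i, r.input, m) u y :=
          ⟨fun x hx => le_antisymm (a6 x hx).2 (a6 x hx).1,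
            fun x hx => le_antisymm (a7 x hx).2 (a7 x hx).1, a8⟩
        have hz := hp (i, r.input, m) (Or.inr rfl) u y hpump (by
          intro b
          simp only [List.count_append]
          omega)
        have hmem : ∀ l ∈ X0, l ∈ X1 ∪ X2 ∪ {(i, r.input, m)} := by
          intro l hl
          rcases a5 hl with h' | h'
          · exact Or.inl (Or.inl h')
          · exact Or.inr h'
        have h0 := ihn (Λ.erase (i, r.input, m)) (by
            rw [Finset.card_erase_of_mem (hX _ (Or.inr rfl))]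
            omega) r'.output i m w0 X0 a3 (by
            intro l hl
            rw [Finset.mem_erase]
            refine ⟨?_, hX l (hmem l hl)⟩
            rintro rfl
            exact a4 hl) (by
            intro l hl u' y' hpu hc
            refine hp l (hmem l hl) u' y' hpu ?_
            intro b
            have := hc b
            simp only [List.count_append] at *
            omega)
        have h3 : r'.output.length * (d + 1) ^ n ≤ (d + 1) ^ (n + 1) := by
          rw [pow_succ, mul_comm]
          exact Nat.mul_le_mul_left _ (by have := hd r' a0; omega)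
        simp only [List.count_append] at hz ⊢
        rw [List.length_cons, Nat.add_mul]
        omega

/-- Pumps with a given block index. -/
theorem D.exists_pump (g : ContextFreeGrammar T) (h : ℕ → T) (M : ℕ) : ∃ K : ℕ,
    ∀ (β : ℕ) (A : g.NT) (j : ℕ) (w : List ℕ) (X : Set (ℕ × g.NT × ℕ)), j ≤ M →
      D g h 0 [Symbol.nonterminal A] w j X → K < w.count β →
      ∃ l ∈ X, ∃ u y, Pump g h l u y ∧ (∀ b, (u ++ y).count b ≤ w.count b) ∧
        1 ≤ (u ++ y).count β := by
  classical
  obtain ⟨d, hd⟩ : ∃ d, ∀ r ∈ g.rules, r.output.length ≤ d :=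
    ⟨g.rules.sup (fun r => r.output.length), fun r hr =>
      Finset.le_sup (f := fun r => r.output.length) hr⟩
  let Λ : Finset (ℕ × g.NT × ℕ) := (Finset.range (M + 1)) ×ˢ (g.rules.image (fun r => r.input)) ×ˢ
    (Finset.range (M + 1))
  refine ⟨(d + 1) ^ Λ.card, ?_⟩
  intro β A j w X hj hD hK
  by_contra hcon
  push Not at hcon
  have := D.bound g h d β hd Λ.card Λ (le_refl _) _ _ _ _ _ hD (by
    intro l hl
    obtain ⟨b1, b2, b3⟩ := hD.bounds
    have := b3 l hl
    obtain ⟨r, hr, hr'⟩ := hD.inputs l hl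
    simp only [Λ, Finset.mem_product, Finset.mem_range, Finset.mem_image]
    exact ⟨by omega, ⟨r, hr, hr'⟩, by omega⟩) (by
    intro l hl u y hp hc
    have := hcon l hl u y hp hc
    omega)
  simp only [List.length_cons, List.length_nil] at this
  omega

end Pool.Agent.H582R2.Tree
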